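import Mathlib

set_option autoImplicit false

/-!
# Bounded flows detect the image of a two-term boundary

`D b e = a₁ e * b (f₁ e) + a₂ e * b (f₂ e)` with coefficients `0` or `±1`. A finitely supported `w`
that is killed by every bounded `ψ` with `ψ ∘ D = 0` is of the form `D b` with `b` finitely
supported.
-/

namespace Pool.Agent.H64Pair

open Finset

section Norm

variable {Q : Type}

/-- the norm `∑ |v e|` -/
noncomputable def n1 (v : Q →₀ ℝ) : ℝ := v.sum fun _ r => |r|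

theorem n1_eq {v : Q →₀ ℝ} {F : Finset Q} (h : v.support ⊆ F) : n1 v = ∑ e ∈ F, |v e| :=
  Finsupp.sum_of_support_subset v h _ (fun _ _ => abs_zero)

theorem n1_nonneg (v : Q →₀ ℝ) : 0 ≤ n1 v := Finset.sum_nonneg fun _ _ => abs_nonneg _

theorem n1_sum_le (v : Q →₀ ℝ) (G : Finset Q) : ∑ e ∈ G, |v e| ≤ n1 v := by
  classical
  rw [n1_eq (F := v.support ∪ G) subset_union_left]
  exact sum_le_sum_of_subset_of_nonneg subset_union_right (fun _ _ _ => abs_nonneg _)

theorem n1_add (v w : Q →₀ ℝ) : n1 (v + w) ≤ n1 v + n1 w := by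
  classical
  rw [n1_eq (F := v.support ∪ w.support) Finsupp.support_add,
    n1_eq (F := v.support ∪ w.support) subset_union_left,
    n1_eq (v := w) (F := v.support ∪ w.support) subset_union_right, ← sum_add_distrib]
  exact sum_le_sum fun e _ => abs_add_le _ _

theorem n1_smul (c : ℝ) (v : Q →₀ ℝ) : n1 (c • v) = |c| * n1 v := by
  rw [n1_eq (F := v.support) Finsupp.support_smul, n1_eq (F := v.support) subset_rfl, mul_sum]
  exact sum_congr rfl fun e _ => by rw [Finsupp.smul_apply, smul_eq_mul, abs_mul]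

theorem n1_zero : n1 (0 : Q →₀ ℝ) = 0 := by simp [n1]

theorem n1_single (e : Q) (r : ℝ) : n1 (Finsupp.single e r) = |r| := by
  classical
  rw [n1, Finsupp.sum_single_index abs_zero]

end Norm

section HB

variable {Q3 Q4 : Type} (D : (Q4 →₀ ℝ) →ₗ[ℝ] (Q3 →₀ ℝ))

/-- the distance to the image of `D` -/
noncomputable def nq (v : Q3 →₀ ℝ) : ℝ := ⨅ b : Q4 →₀ ℝ, n1 (v - D b)

theorem nq_bdd (v : Q3 →₀ ℝ) : BddBelow (Set.range fun b : Q4 →₀ ℝ => n1 (v - D b)) :=
  ⟨0, by rintro _ ⟨b, rfl⟩; exact n1_nonneg _⟩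

theorem nq_le (v : Q3 →₀ ℝ) (b : Q4 →₀ ℝ) : nq D v ≤ n1 (v - D b) := ciInf_le (nq_bdd D v) b

theorem nq_nonneg (v : Q3 →₀ ℝ) : 0 ≤ nq D v := le_ciInf fun _ => n1_nonneg _

theorem nq_smul_le {c : ℝ} (hc : 0 < c) (v : Q3 →₀ ℝ) : nq D (c • v) ≤ c * nq D v := by
  have h : ∀ b, c⁻¹ * nq D (c • v) ≤ n1 (v - D b) := by
    intro b
    have h1 := nq_le D (c • v) (c • b)
    rw [map_smul, ← smul_sub, n1_smul, abs_of_pos hc] at h1
    rw [inv_mul_le_iff₀ hc]
    exact h1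
  have h2 : c⁻¹ * nq D (c • v) ≤ nq D v := le_ciInf h
  rwa [inv_mul_le_iff₀ hc] at h2

theorem nq_smul {c : ℝ} (hc : 0 < c) (v : Q3 →₀ ℝ) : nq D (c • v) = c * nq D v := by
  refine le_antisymm (nq_smul_le D hc v) ?_
  have h := nq_smul_le D (inv_pos.2 hc) (c • v)
  rw [smul_smul, inv_mul_cancel₀ hc.ne', one_smul, ← div_eq_inv_mul, le_div_iff₀ hc] at h
  rwa [mul_comm]

theorem nq_add (v w : Q3 →₀ ℝ) : nq D (v + w) ≤ nq D v + nq D w := by
  have h : ∀ b, nq D (v + w) - n1 (v - D b) ≤ nq D w := by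
    intro b
    refine le_ciInf fun c => ?_
    have h1 := nq_le D (v + w) (b + c)
    have h2 := n1_add (v - D b) (w - D c)
    have h3 : v - D b + (w - D c) = v + w - D (b + c) := by rw [map_add]; abel
    rw [h3] at h2
    linarith
  have h2 : nq D (v + w) - nq D w ≤ nq D v := le_ciInf fun b => by
    have := h b
    linarith
  linarith

theorem nq_image (b : Q4 →₀ ℝ) : nq D (D b) = 0 := by
  refine le_antisymm ?_ (nq_nonneg D _)
  have h := nq_le D (D b) b
  rwa [sub_self, n1_zero] at h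

theorem nq_le_n1 (v : Q3 →₀ ℝ) : nq D v ≤ n1 v := by
  have h := nq_le D v 0
  rwa [map_zero, sub_zero] at h

/-- Hahn-Banach -/
theorem nq_eq_zero (w : Q3 →₀ ℝ)
    (hw : ∀ ψ : Q3 → ℝ, (∃ M : ℝ, ∀ e, |ψ e| ≤ M) →
      (∀ b, (D b).sum (fun e r => r * ψ e) = 0) → w.sum (fun e r => r * ψ e) = 0) :
    nq D w = 0 := by
  by_contra hne
  have hpos : 0 < nq D w := lt_of_le_of_ne (nq_nonneg D w) (Ne.symm hne)
  have hw0 : w ≠ 0 := by
    rintro rfl
    have h := nq_image D 0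
    rw [map_zero] at h
    exact hne h
  obtain ⟨g, hg1, hg2⟩ := exists_extension_of_le_sublinear
    (LinearPMap.mkSpanSingleton w (nq D w) hw0) (nq D) (fun c hc x => nq_smul D hc x)
    (nq_add D) (by
      rintro ⟨x, hx⟩
      obtain ⟨c, rfl⟩ := Submodule.mem_span_singleton.1 hx
      have h1 : (LinearPMap.mkSpanSingleton w (nq D w) hw0) ⟨c • w, hx⟩ = c • nq D w :=
        LinearPMap.mkSpanSingleton'_apply _ _ _ _ _
      rw [h1, smul_eq_mul]
      rcases lt_or_ge 0 c with hc | hc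
      · exact (nq_smul D hc w).ge
      · exact (mul_nonpos_of_nonpos_of_nonneg hc hpos.le).trans (nq_nonneg D _))
  have hgw : g w = nq D w := by
    have h1 := hg1 ⟨w, Submodule.mem_span_singleton_self w⟩
    rw [h1]
    exact LinearPMap.mkSpanSingleton_apply ℝ ℝ hw0 _
  have hgD : ∀ b, g (D b) = 0 := by
    intro b
    have h1 := hg2 (D b)
    have h2 := hg2 (D (-b))
    rw [nq_image] at h1 h2
    rw [map_neg, map_neg] at h2
    linarith
  have hsum : ∀ v : Q3 →₀ ℝ, v.sum (fun e r => r * g (Finsupp.single e 1)) = g v := by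
    intro v
    conv_rhs => rw [← Finsupp.sum_single v]
    rw [map_finsuppSum]
    refine Finsupp.sum_congr fun e _ => ?_
    rw [← smul_eq_mul, ← map_smul, Finsupp.smul_single, smul_eq_mul, mul_one]
  have h3 := hw (fun e => g (Finsupp.single e 1)) ⟨1, fun e => ?_⟩ (fun b => by
    rw [hsum, hgD])
  · rw [hsum, hgw] at h3
    exact hne h3
  · have h1 := (hg2 (Finsupp.single e 1)).trans (nq_le_n1 D _)
    have h2 := (hg2 (-Finsupp.single e 1)).trans (nq_le_n1 D _)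
    rw [map_neg, ← Finsupp.single_neg] at h2
    rw [n1_single] at h1 h2
    rw [abs_neg, abs_one] at h2
    rw [abs_one] at h1
    rw [abs_le]
    constructor <;> linarith

end HB

section Graph

variable {Q3 Q4 : Type}

/-- The graph of the elements `e` outside `T` with two nonzero coefficients. -/
def gr (f₁ f₂ : Q3 → Q4) (a₁ a₂ : Q3 → ℝ) (T : Finset Q3) : SimpleGraph Q4 where
  Adj u v := u ≠ v ∧ ∃ e, e ∉ T ∧ a₁ e ≠ 0 ∧ a₂ e ≠ 0 ∧ s(f₁ e, f₂ e) = s(u, v)
  symm := ⟨by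
    rintro u v ⟨h1, e, h2, h3, h4, h5⟩
    exact ⟨h1.symm, e, h2, h3, h4, h5.trans Sym2.eq_swap⟩⟩
  loopless := ⟨fun u h => h.1 rfl⟩

variable {D : (Q4 →₀ ℝ) →ₗ[ℝ] (Q3 →₀ ℝ)} {f₁ f₂ : Q3 → Q4} {a₁ a₂ : Q3 → ℝ}
  (ha₁ : ∀ e, a₁ e = 0 ∨ |a₁ e| = 1) (ha₂ : ∀ e, a₂ e = 0 ∨ |a₂ e| = 1)
  (hD : ∀ b e, D b e = a₁ e * b (f₁ e) + a₂ e * b (f₂ e))

include ha₁ ha₂ hD

theorem step_le (b : Q4 →₀ ℝ) {e : Q3} {u v : Q4} (h1 : a₁ e ≠ 0) (h2 : a₂ e ≠ 0)
    (h : s(f₁ e, f₂ e) = s(u, v)) : |b u| ≤ |b v| + |D b e| := by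
  have g1 := (ha₁ e).resolve_left h1
  have g2 := (ha₂ e).resolve_left h2
  have k1 : |a₁ e * b (f₁ e)| = |b (f₁ e)| := by rw [abs_mul, g1, one_mul]
  have k2 : |a₂ e * b (f₂ e)| = |b (f₂ e)| := by rw [abs_mul, g2, one_mul]
  have hd := hD b e
  rcases Sym2.eq_iff.1 h with ⟨rfl, rfl⟩ | ⟨rfl, rfl⟩
  · rw [← k1, ← k2]
    have : a₁ e * b (f₁ e) = D b e - a₂ e * b (f₂ e) := by rw [hd]; ring
    rw [this, add_comm]
    exact abs_sub _ _
  · rw [← k1, ← k2]
    have : a₂ e * b (f₂ e) = D b e - a₁ e * b (f₁ e) := by rw [hd]; ring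
    rw [this, add_comm]
    exact abs_sub _ _

theorem walk_le (b : Q4 →₀ ℝ) (T : Finset Q3) (c : Sym2 Q4 → Q3)
    (hc : ∀ s ∈ (gr f₁ f₂ a₁ a₂ T).edgeSet, a₁ (c s) ≠ 0 ∧ a₂ (c s) ≠ 0 ∧
      s(f₁ (c s), f₂ (c s)) = s) {u v : Q4} (p : (gr f₁ f₂ a₁ a₂ T).Walk u v) :
    |b u| ≤ |b v| + (p.edges.map (fun s => |D b (c s)|)).sum := by
  induction p with
  | nil => simp
  | @cons u v z h p ih =>
    obtain ⟨h1, h2, h3⟩ := hc s(u, v) h
    have h4 := step_le ha₁ ha₂ hD b h1 h2 h3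
    rw [SimpleGraph.Walk.edges_cons, List.map_cons, List.sum_cons]
    linarith

theorem reach_le (w : Q3 →₀ ℝ) (b : Q4 →₀ ℝ) {u v : Q4}
    (h : (gr f₁ f₂ a₁ a₂ w.support).Reachable u v) : |b u| ≤ |b v| + n1 (w - D b) := by
  classical
  by_cases hne : Nonempty Q3
  · obtain ⟨e0⟩ := hne
    have hex : ∀ s : Sym2 Q4, ∃ e, s ∈ (gr f₁ f₂ a₁ a₂ w.support).edgeSet →
        e ∉ w.support ∧ a₁ e ≠ 0 ∧ a₂ e ≠ 0 ∧ s(f₁ e, f₂ e) = s := by
      intro s
      by_cases hs : s ∈ (gr f₁ f₂ a₁ a₂ w.support).edgeSet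
      · induction s with
        | _ x y =>
          obtain ⟨-, e, he⟩ := hs
          exact ⟨e, fun _ => he⟩
      · exact ⟨e0, fun h => absurd h hs⟩
    choose c hc using hex
    obtain ⟨q⟩ := h
    set p := q.bypass with hp
    have hpath : p.IsPath := q.bypass_isPath
    have h1 := walk_le ha₁ ha₂ hD b w.support c (fun s hs => (hc s hs).2) p
    refine h1.trans (add_le_add_right ?_ _)
    have hnd : p.edges.Nodup := hpath.isTrail.edges_nodup
    rw [← List.sum_toFinset _ hnd]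
    have hmem : ∀ s ∈ p.edges.toFinset, s ∈ (gr f₁ f₂ a₁ a₂ w.support).edgeSet := by
      intro s hs
      exact p.edges_subset_edgeSet (List.mem_toFinset.1 hs)
    have hinj : Set.InjOn c (p.edges.toFinset : Set (Sym2 Q4)) := by
      intro s hs t ht hst
      have h2 := (hc s (hmem s hs)).2.2.2
      have h3 := (hc t (hmem t ht)).2.2.2
      rw [← h2, ← h3, hst]
    rw [← Finset.sum_image (f := fun e => |D b e|) hinj]
    refine le_trans (le_of_eq ?_) (n1_sum_le (w - D b) (p.edges.toFinset.image c))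
    refine sum_congr rfl fun e he => ?_
    obtain ⟨s, hs, rfl⟩ := mem_image.1 he
    have h4 := (hc s (hmem s hs)).1
    rw [Finsupp.notMem_support_iff] at h4
    rw [Finsupp.sub_apply, h4, zero_sub, abs_neg]
  · obtain ⟨q⟩ := h
    cases q with
    | nil => exact le_add_of_nonneg_right (n1_nonneg _)
    | cons h _ =>
      obtain ⟨-, e, -⟩ := h
      exact absurd ⟨e⟩ hne

/-- on an infinite component `b` is small -/
theorem infinite_le (w : Q3 →₀ ℝ) (b : Q4 →₀ ℝ) {u : Q4}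
    (h : {v | (gr f₁ f₂ a₁ a₂ w.support).Reachable u v}.Infinite) : |b u| ≤ n1 (w - D b) := by
  obtain ⟨v, hv1, hv2⟩ := h.exists_notMem_finset b.support
  have h1 := reach_le ha₁ ha₂ hD w b hv1
  rw [Finsupp.notMem_support_iff.1 hv2, abs_zero, zero_add] at h1
  exact h1

/-- Cutting `b` off outside finitely many vertices does not change `w - D b` much. -/
theorem exists_cut (w : Q3 →₀ ℝ) : ∃ U : Finset Q4, ∀ b : Q4 →₀ ℝ, ∃ b' : Q4 →₀ ℝ,
    b'.support ⊆ U ∧ n1 (w - D b') ≤ (1 + 2 * (w.support.card : ℝ)) * n1 (w - D b) := by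
  classical
  set H := gr f₁ f₂ a₁ a₂ w.support with hH
  set ends : Finset Q4 := w.support.image f₁ ∪ w.support.image f₂ with hends
  set U' : Set Q4 := ⋃ x ∈ {x | x ∈ ends ∧ {v | H.Reachable x v}.Finite},
    {v | H.Reachable x v} with hU'
  have hfin : U'.Finite := by
    refine Set.Finite.biUnion (Set.Finite.subset ends.finite_toSet fun x hx => hx.1) ?_
    intro x hx
    exact hx.2
  have hmemU : ∀ v, v ∈ U' ↔ ∃ x, x ∈ ends ∧ {v | H.Reachable x v}.Finite ∧
      H.Reachable x v := by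
    intro v
    rw [hU', Set.mem_iUnion₂]
    constructor
    · rintro ⟨x, ⟨h1, h2⟩, h3⟩
      exact ⟨x, h1, h2, h3⟩
    · rintro ⟨x, h1, h2, h3⟩
      exact ⟨x, ⟨h1, h2⟩, h3⟩
  have hclosed : ∀ u v, H.Reachable u v → u ∈ U' → v ∈ U' := by
    intro u v huv hu
    obtain ⟨x, h1, h2, h3⟩ := (hmemU u).1 hu
    exact (hmemU v).2 ⟨x, h1, h2, h3.trans huv⟩
  have hend : ∀ x ∈ ends, x ∉ U' → {v | H.Reachable x v}.Infinite := by
    intro x hx hxU hf
    exact hxU ((hmemU x).2 ⟨x, hx, hf, SimpleGraph.Reachable.refl x⟩)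
  refine ⟨hfin.toFinset, fun b => ?_⟩
  set b' : Q4 →₀ ℝ := b.filter (· ∈ U') with hb'
  have hb1 : ∀ x, x ∈ U' → b' x = b x := fun x hx => Finsupp.filter_apply_pos _ _ hx
  have hb2 : ∀ x, x ∉ U' → b' x = 0 := fun x hx => Finsupp.filter_apply_neg _ _ hx
  refine ⟨b', ?_, ?_⟩
  · intro x hx
    rw [Set.Finite.mem_toFinset]
    by_contra hcon
    exact (Finsupp.mem_support_iff.1 hx) (hb2 x hcon)
  set δ := n1 (w - D b) with hδ
  have hδ0 : 0 ≤ δ := n1_nonneg _
  have hbx : ∀ x, |b' x| ≤ |b x| := by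
    intro x
    by_cases hx : x ∈ U'
    · rw [hb1 x hx]
    · rw [hb2 x hx, abs_zero]; exact abs_nonneg _
  -- outside the support of `w`
  have hoff : ∀ e, e ∉ w.support → |(w - D b') e| ≤ |(w - D b) e| := by
    intro e he
    rw [Finsupp.sub_apply, Finsupp.sub_apply, Finsupp.notMem_support_iff.1 he, zero_sub,
      zero_sub, abs_neg, abs_neg, hD, hD]
    by_cases h1 : a₁ e = 0
    · rw [h1, zero_mul, zero_mul, zero_add, zero_add, abs_mul, abs_mul]
      exact mul_le_mul_of_nonneg_left (hbx _) (abs_nonneg _)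
    · by_cases h2 : a₂ e = 0
      · rw [h2, zero_mul, zero_mul, add_zero, add_zero, abs_mul, abs_mul]
        exact mul_le_mul_of_nonneg_left (hbx _) (abs_nonneg _)
      · have hr : H.Reachable (f₁ e) (f₂ e) := by
          by_cases h3 : f₁ e = f₂ e
          · rw [h3]
          · exact SimpleGraph.Adj.reachable ⟨h3, e, he, h1, h2, rfl⟩
        by_cases hu : f₁ e ∈ U'
        · rw [hb1 _ hu, hb1 _ (hclosed _ _ hr hu)]
        · have hv : f₂ e ∉ U' := fun hv => hu (hclosed _ _ hr.symm hv)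
          rw [hb2 _ hu, hb2 _ hv, mul_zero, mul_zero, add_zero, abs_zero]
          exact abs_nonneg _
  have hdiff : ∀ x ∈ ends, |b x - b' x| ≤ δ := by
    intro x hx
    by_cases hxU : x ∈ U'
    · rw [hb1 x hxU, sub_self, abs_zero]; exact hδ0
    · rw [hb2 x hxU, sub_zero]
      exact infinite_le ha₁ ha₂ hD w b (hend x hx hxU)
  have habs1 : ∀ e, |a₁ e| ≤ 1 := fun e => by
    rcases ha₁ e with h | h
    · rw [h, abs_zero]; exact zero_le_one
    · exact h.le
  have habs2 : ∀ e, |a₂ e| ≤ 1 := fun e => by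
    rcases ha₂ e with h | h
    · rw [h, abs_zero]; exact zero_le_one
    · exact h.le
  have hon : ∀ e ∈ w.support, |(w - D b') e| ≤ |(w - D b) e| + 2 * δ := by
    intro e he
    have h1 : (w - D b') e = (w - D b) e +
        (a₁ e * (b (f₁ e) - b' (f₁ e)) + a₂ e * (b (f₂ e) - b' (f₂ e))) := by
      rw [Finsupp.sub_apply, Finsupp.sub_apply, hD, hD]; ring
    have h2 : |a₁ e * (b (f₁ e) - b' (f₁ e))| ≤ δ := by
      rw [abs_mul]
      have := hdiff (f₁ e) (mem_union_left _ (mem_image_of_mem _ he))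
      nlinarith [habs1 e, abs_nonneg (a₁ e), abs_nonneg (b (f₁ e) - b' (f₁ e))]
    have h3 : |a₂ e * (b (f₂ e) - b' (f₂ e))| ≤ δ := by
      rw [abs_mul]
      have := hdiff (f₂ e) (mem_union_right _ (mem_image_of_mem _ he))
      nlinarith [habs2 e, abs_nonneg (a₂ e), abs_nonneg (b (f₂ e) - b' (f₂ e))]
    rw [h1]
    have h4 := abs_add_le ((w - D b) e)
      (a₁ e * (b (f₁ e) - b' (f₁ e)) + a₂ e * (b (f₂ e) - b' (f₂ e)))
    have h5 := abs_add_le (a₁ e * (b (f₁ e) - b' (f₁ e))) (a₂ e * (b (f₂ e) - b' (f₂ e)))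
    linarith
  set F := (w - D b').support ∪ (w - D b).support ∪ w.support with hF
  have hF1 : (w - D b').support ⊆ F := fun x hx =>
    mem_union_left _ (mem_union_left _ hx)
  have hF2 : (w - D b).support ⊆ F := fun x hx =>
    mem_union_left _ (mem_union_right _ hx)
  have hF3 : w.support ⊆ F := subset_union_right
  rw [n1_eq hF1]
  have h1 : ∑ e ∈ F, |(w - D b') e| ≤
      ∑ e ∈ F, (|(w - D b) e| + if e ∈ w.support then 2 * δ else 0) := by
    refine sum_le_sum fun e _ => ?_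
    by_cases he : e ∈ w.support
    · rw [if_pos he]; exact hon e he
    · rw [if_neg he, add_zero]; exact hoff e he
  refine h1.trans (le_of_eq ?_)
  rw [sum_add_distrib, ← n1_eq hF2, ← sum_filter, sum_const, nsmul_eq_mul]
  have h2 : F.filter (· ∈ w.support) = w.support := by
    ext x
    rw [mem_filter]
    exact ⟨fun h => h.2, fun h => ⟨hF3 h, h⟩⟩
  rw [h2]
  ring

end Graph

/-- A finitely supported `w` that is killed by every bounded `ψ` with `ψ ∘ D = 0` is in the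
image of `D`. -/
theorem exists_of_pair {Q3 Q4 : Type} (D : (Q4 →₀ ℝ) →ₗ[ℝ] (Q3 →₀ ℝ)) (f₁ f₂ : Q3 → Q4)
    (a₁ a₂ : Q3 → ℝ) (ha₁ : ∀ e, a₁ e = 0 ∨ |a₁ e| = 1) (ha₂ : ∀ e, a₂ e = 0 ∨ |a₂ e| = 1)
    (hD : ∀ b e, D b e = a₁ e * b (f₁ e) + a₂ e * b (f₂ e)) (w : Q3 →₀ ℝ)
    (hw : ∀ ψ : Q3 → ℝ, (∃ M : ℝ, ∀ e, |ψ e| ≤ M) →
      (∀ b, (D b).sum (fun e r => r * ψ e) = 0) → w.sum (fun e r => r * ψ e) = 0) :
    ∃ b, D b = w := by
  classical
  have hq := nq_eq_zero D w hw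
  obtain ⟨U, hU⟩ := exists_cut ha₁ ha₂ hD w
  set W : Submodule ℝ (Q3 →₀ ℝ) := (Finsupp.supported ℝ ℝ (U : Set Q4)).map D with hW
  by_cases hwW : w ∈ W
  · obtain ⟨b, -, hb⟩ := (Submodule.mem_map).1 hwW
    exact ⟨b, hb⟩
  exfalso
  obtain ⟨l, hl1, hl2⟩ := Submodule.exists_le_ker_of_notMem hwW
  set E : Finset Q3 := w.support ∪ U.biUnion (fun u => (D (Finsupp.single u 1)).support) with hE
  set K : ℝ := ∑ e ∈ E, |l (Finsupp.single e 1)| with hK
  have hK0 : 0 ≤ K := sum_nonneg fun _ _ => abs_nonneg _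
  have hbound : ∀ v : Q3 →₀ ℝ, v.support ⊆ E → |l v| ≤ K * n1 v := by
    intro v hv
    have h1 : l v = ∑ e ∈ E, v e * l (Finsupp.single e 1) := by
      conv_lhs => rw [← Finsupp.sum_single v]
      rw [map_finsuppSum, Finsupp.sum_of_support_subset v hv _ (fun e _ => by simp)]
      refine sum_congr rfl fun e _ => ?_
      rw [← smul_eq_mul, ← map_smul, Finsupp.smul_single, smul_eq_mul, mul_one]
    rw [h1, n1_eq hv, mul_sum]
    refine (abs_sum_le_sum_abs _ _).trans (sum_le_sum fun e he => ?_)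
    rw [abs_mul, mul_comm]
    exact mul_le_mul_of_nonneg_right
      (single_le_sum (f := fun e => |l (Finsupp.single e 1)|) (fun _ _ => abs_nonneg _) he)
      (abs_nonneg _)
  have hsupp : ∀ b' : Q4 →₀ ℝ, b'.support ⊆ U → (w - D b').support ⊆ E := by
    intro b' hb' e he
    by_contra hcon
    rw [hE, mem_union, not_or, mem_biUnion] at hcon
    obtain ⟨h1, h2⟩ := hcon
    apply Finsupp.mem_support_iff.1 he
    have h3 : D b' e = 0 := by
      conv_lhs => rw [← Finsupp.sum_single b']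
      rw [map_finsuppSum, Finsupp.sum, Finsupp.finsetSum_apply]
      refine sum_eq_zero fun u hu => ?_
      have h4 : e ∉ (D (Finsupp.single u 1)).support := fun h => h2 ⟨u, hb' hu, h⟩
      have h5 : D (Finsupp.single u (b' u)) = b' u • D (Finsupp.single u 1) := by
        rw [← map_smul, Finsupp.smul_single, smul_eq_mul, mul_one]
      rw [h5, Finsupp.smul_apply, Finsupp.notMem_support_iff.1 h4, smul_zero]
    rw [Finsupp.sub_apply, Finsupp.notMem_support_iff.1 h1, h3, sub_zero]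
  have hle : ∀ b, |l w| ≤ K * ((1 + 2 * (w.support.card : ℝ)) * n1 (w - D b)) := by
    intro b
    obtain ⟨b', h1, h2⟩ := hU b
    have h3 : l (D b') = 0 := by
      have h4 : D b' ∈ W := Submodule.mem_map_of_mem
        ((Finsupp.mem_supported ℝ b').2 (by exact_mod_cast h1))
      exact LinearMap.mem_ker.1 (hl2 h4)
    have h4 : l w = l (w - D b') := by rw [map_sub, h3, sub_zero]
    rw [h4]
    exact (hbound _ (hsupp b' h1)).trans (mul_le_mul_of_nonneg_left h2 hK0)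
  have hpos : 0 < |l w| := abs_pos.2 hl1
  have hC : 0 < K * (1 + 2 * (w.support.card : ℝ)) + 1 := by positivity
  have hlt : nq D w < |l w| / (K * (1 + 2 * (w.support.card : ℝ)) + 1) := by
    rw [hq]; positivity
  obtain ⟨b, hb⟩ := exists_lt_of_ciInf_lt hlt
  have h1 := hle b
  rw [lt_div_iff₀ hC] at hb
  have h2 := n1_nonneg (w - D b)
  nlinarith

end Pool.Agent.H64Pair
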